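import Mathlib
import Pool.Agent.H767R2.Charac
import Pool.Agent.H767R2.Exist3
import Pool.Agent.H767R2.Defs2

set_option autoImplicit false

/-!
# `d^W_min(𝒫) ≤ |𝒫| - 1`

The case of order exactly `|𝒫| - 1` is the theorem `characteristic_card_sub_one` of the starting library
(`Pool.Agent.H767R2.Charac`); this file passes from it to all orders `d ≥ max 1 (|𝒫| - 1)` by padding the
family.
-/

namespace Pool.Agent.Results.MP_467fc0_an.WeylOrderBound

open Pool.Agent.H767R2 MeasureTheory Filter Topology Polynomial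
open scoped ENNReal

/-- Adding one polynomial of large degree. -/
theorem pad_one (P : Finset ℤ[X]) (hP : EssentiallyDistinct P) :
    ∃ q : ℤ[X], q ∉ P ∧ EssentiallyDistinct (insert q P) := by
  classical
  set M := P.sup natDegree with hM
  have hdeg : ∀ p ∈ P, p.natDegree ≤ M := fun p hp => Finset.le_sup (f := natDegree) hp
  have hX : ∀ p ∈ P, ((X : ℤ[X]) ^ (M + 1) - p).natDegree = M + 1 := by
    intro p hp
    rw [natDegree_sub_eq_left_of_natDegree_lt, natDegree_X_pow]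
    rw [natDegree_X_pow]
    exact Nat.lt_succ_of_le (hdeg p hp)
  refine ⟨X ^ (M + 1), ?_, ?_, ?_⟩
  · intro h
    have h1 := hdeg _ h
    rw [natDegree_X_pow] at h1
    omega
  · intro p hp
    rcases Finset.mem_insert.1 hp with rfl | hp
    · rw [natDegree_X_pow]; omega
    · exact hP.1 p hp
  · intro p hp q hq hpq
    rcases Finset.mem_insert.1 hp with rfl | hp
    · rcases Finset.mem_insert.1 hq with rfl | hq
      · exact absurd rfl hpq
      · rw [hX q hq]; omega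
    · rcases Finset.mem_insert.1 hq with rfl | hq
      · rw [← natDegree_neg, neg_sub, hX p hp]; omega
      · exact hP.2 p hp q hq hpq

theorem pad (P : Finset ℤ[X]) (hP : EssentiallyDistinct P) (n : ℕ) (hn : P.card ≤ n) :
    ∃ P' : Finset ℤ[X], P ⊆ P' ∧ EssentiallyDistinct P' ∧ P'.card = n := by
  classical
  induction n, hn using Nat.le_induction with
  | base => exact ⟨P, subset_rfl, hP, rfl⟩
  | succ n hn ih =>
    obtain ⟨P', h1, h2, h3⟩ := ih
    obtain ⟨q, hq, h4⟩ := pad_one P' h2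
    exact ⟨insert q P', h1.trans (Finset.subset_insert q P'), h4, by rw [Finset.card_insert_of_notMem hq, h3]⟩

/-- The extension of a tuple of functions by the constant `1` outside the family. -/
noncomputable def ext1 {Y : Type*} (P : Finset ℤ[X]) (f : ℤ[X] → Y → ℂ) : ℤ[X] → Y → ℂ := by
  classical
  exact fun p => if p ∈ P then f p else fun _ => 1

theorem ext1_mem {Y : Type*} (P : Finset ℤ[X]) (f : ℤ[X] → Y → ℂ) {p : ℤ[X]} (hp : p ∈ P) :
    ext1 P f p = f p := by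
  simp only [ext1]
  rw [if_pos hp]

theorem ext1_notMem {Y : Type*} (P : Finset ℤ[X]) (f : ℤ[X] → Y → ℂ) {p : ℤ[X]} (hp : p ∉ P) :
    ext1 P f p = fun _ => 1 := by
  simp only [ext1]
  rw [if_neg hp]

theorem polyAvg_ext {Y : Type*} (T : Equiv.Perm Y) (P P' : Finset ℤ[X]) (h : P ⊆ P')
    (f g : ℤ[X] → Y → ℂ) (hfg : ∀ p ∈ P, g p = f p) (h1 : ∀ p ∈ P', p ∉ P → g p = fun _ => 1) (N : ℕ) :
    polyAvg T P' g N = polyAvg T P f N := by
  classical
  ext x
  simp only [polyAvg]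
  congr 1
  refine Finset.sum_congr rfl fun n _ => ?_
  rw [← Finset.prod_subset h (fun p hp hp' => by rw [h1 p hp hp'])]
  exact Finset.prod_congr rfl fun p hp => by rw [hfg p hp]

theorem memLp_ext1 {Y : Type*} {m₀ : MeasurableSpace Y} {μ : Measure Y} [IsProbabilityMeasure μ]
    (P : Finset ℤ[X]) (f : ℤ[X] → Y → ℂ) (hf : ∀ p ∈ P, MemLp (f p) ∞ μ) (p : ℤ[X]) :
    MemLp (ext1 P f p) ∞ μ := by
  by_cases hp : p ∈ P
  · rw [ext1_mem P f hp]; exact hf p hp
  · rw [ext1_notMem P f hp]; exact memLp_const 1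

/-- If `𝒵` is characteristic for a larger family, it is characteristic for the smaller one. -/
theorem IsCharacteristic.mono {Y : Type*} {𝒵 m₀ : MeasurableSpace Y} {μ : Measure Y}
    [IsProbabilityMeasure μ] (h𝒵 : 𝒵 ≤ m₀) (T : Equiv.Perm Y) {P P' : Finset ℤ[X]} (h : P ⊆ P')
    (hc : IsCharacteristic 𝒵 μ T P') : IsCharacteristic 𝒵 μ T P := by
  classical
  intro f hf
  have h1 := hc (ext1 P f) (fun p _ => memLp_ext1 P f hf p)
  refine h1.congr fun N => ?_
  rw [polyAvg_ext T P P' h f (ext1 P f) (fun p hp => ext1_mem P f hp) (fun p _ hp => ext1_notMem P f hp),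
    polyAvg_ext T P P' h (fun p => μ[f p | 𝒵]) (fun p => μ[ext1 P f p | 𝒵])
      (fun p hp => by rw [ext1_mem P f hp])
      (fun p _ hp => by rw [ext1_notMem P f hp, condExp_const h𝒵])]

theorem main (P : Finset ℤ[X]) (hP : EssentiallyDistinct P) (d : ℕ) (hd : 1 ≤ d) (hPd : P.card ≤ d + 1)
    (W : WeylSystem) :
    (∃ 𝒵 : MeasurableSpace (Fin W.D → UnitAddCircle), IsHKFactor 𝒵 (haarT W.D) W.T d) ∧
    (∀ 𝒵 : MeasurableSpace (Fin W.D → UnitAddCircle),
      IsHKFactor 𝒵 (haarT W.D) W.T d → IsCharacteristic 𝒵 (haarT W.D) W.T P) ∧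
    ∀ f : ℤ[X] → (Fin W.D → UnitAddCircle) → ℂ, (∀ p ∈ P, MemLp (f p) ∞ (haarT W.D)) →
      (∃ p ∈ P, hk (haarT W.D) W.T d (f p) = 0) →
      Tendsto (fun N : ℕ => eLpNorm (polyAvg W.T P f N) 2 (haarT W.D)) atTop (𝓝 0) := by
  classical
  obtain ⟨P', h1, h2, h3⟩ := pad P hP (d + 1) hPd
  refine ⟨W.exists_hkFactor d, fun 𝒵 h𝒵 => ?_, fun f hf ⟨p, hp, h0⟩ => ?_⟩
  · refine IsCharacteristic.mono h𝒵.le W.T h1 ?_
    refine characteristic_card_sub_one P' h2 (by omega) W 𝒵 ?_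
    rw [h3, Nat.add_sub_cancel]
    exact h𝒵
  · have h4 := seminorm_form W P' (fun p => p) (by omega) (fun p hp => h2.1 p hp)
      (fun p hp q hq h => h2.2 p hp q hq h) (ext1 P f)
      (fun p => (eLpNorm (ext1 P f p) ∞ (haarT W.D)).toReal)
      (fun p _ => bd_of_memLp_top (memLp_ext1 P f hf p)) p (h1 hp)
      (by rw [h3, Nat.add_sub_cancel, ext1_mem P f hp]; exact h0)
    refine h4.congr fun N => ?_
    congr 1
    exact polyAvg_ext W.T P P' h1 f (ext1 P f) (fun p hp => ext1_mem P f hp)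
      (fun p _ hp => ext1_notMem P f hp) N

/-- For every essentially distinct family `𝒫 ⊂ ℤ[t]` with `|𝒫| ≥ 2` one has `d^W_min(𝒫) ≤ |𝒫| - 1`.
More precisely, for every essentially distinct family `𝒫`, every `d ≥ 1` with `d ≥ |𝒫| - 1` and every Weyl
system: the Host–Kra factor `𝒵_d` exists, it is characteristic for the averages `A_N` of the family, and
`A_N → 0` in `L²` as soon as `|||f_p|||_{d+1} = 0` for one `p ∈ 𝒫`. -/
theorem result :
    (∀ P : Finset ℤ[X], EssentiallyDistinct P → 2 ≤ P.card → dWMin P ≤ ((P.card - 1 : ℕ) : ℕ∞)) ∧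
    ∀ P : Finset ℤ[X], EssentiallyDistinct P → ∀ d : ℕ, 1 ≤ d → P.card ≤ d + 1 → ∀ W : WeylSystem,
      (∃ 𝒵 : MeasurableSpace (Fin W.D → UnitAddCircle), IsHKFactor 𝒵 (haarT W.D) W.T d) ∧
      (∀ 𝒵 : MeasurableSpace (Fin W.D → UnitAddCircle),
        IsHKFactor 𝒵 (haarT W.D) W.T d → IsCharacteristic 𝒵 (haarT W.D) W.T P) ∧
      ∀ f : ℤ[X] → (Fin W.D → UnitAddCircle) → ℂ, (∀ p ∈ P, MemLp (f p) ∞ (haarT W.D)) →
        (∃ p ∈ P, hk (haarT W.D) W.T d (f p) = 0) →
        Tendsto (fun N : ℕ => eLpNorm (polyAvg W.T P f N) 2 (haarT W.D)) atTop (𝓝 0) := by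
  refine ⟨fun P hP h2 => ?_, main⟩
  refine iInf₂_le (P.card - 1) fun W => ?_
  obtain ⟨⟨𝒵, h𝒵⟩, h1, -⟩ := main P hP (P.card - 1) (by omega) (by omega) W
  exact ⟨𝒵, h𝒵, h1 𝒵 h𝒵⟩

end Pool.Agent.Results.MP_467fc0_an.WeylOrderBound
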